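import Pool.Agent.H95.Paranormal

set_option autoImplicit false

universe u

theorem Pool.Agent.Results.MP_69a59d_an.Bounded.result
    (H : Type u) [NormedAddCommGroup H] [InnerProductSpace ℂ H] [CompleteSpace H]
    (T : H →ₗ[ℂ] H) (hT : ∀ x : H, ‖T x‖ ^ 2 ≤ ‖T (T x)‖ * ‖x‖) :
    ∃ C : ℝ, ∀ x : H, ‖T x‖ ≤ C * ‖x‖ :=
  Pool.Agent.H95.Paranormal.bounded T hT
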